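import Pool.Agent.Y301.Main

/-! Shi's quadratic system has at most four limit cycles. -/

namespace Pool.Agent.Results.MP_732d27_an.ShiFour

/-- the right-hand side of the quadratic system with coefficients `l a b c d e` -/
def field (l a b c d e : ℝ) (p : ℝ × ℝ) : ℝ × ℝ :=
  (l * p.1 - p.2 + a * p.1 ^ 2 + b * p.1 * p.2 + c * p.2 ^ 2, p.1 + d * p.1 ^ 2 + e * p.1 * p.2)

/-- `C` is a periodic orbit (the range of a nonconstant periodic solution) of `p' = V p` -/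
def IsPeriodicOrbit (V : ℝ × ℝ → ℝ × ℝ) (C : Set (ℝ × ℝ)) : Prop :=
  ∃ γ : ℝ → ℝ × ℝ, ∃ T : ℝ, 0 < T ∧ (∀ t, HasDerivAt γ (V (γ t)) t) ∧
    (∀ t, γ (t + T) = γ t) ∧ (∃ s t, γ s ≠ γ t) ∧ C = Set.range γ

/-- `C` is a limit cycle: a periodic orbit with a neighbourhood which contains no other
periodic orbit -/
def IsLimitCycle (V : ℝ × ℝ → ℝ × ℝ) (C : Set (ℝ × ℝ)) : Prop :=
  IsPeriodicOrbit V C ∧
    ∃ U : Set (ℝ × ℝ), IsOpen U ∧ C ⊆ U ∧ ∀ D, IsPeriodicOrbit V D → D ⊆ U → D = C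

/-- Shi's system -/
noncomputable def shi : ℝ × ℝ → ℝ × ℝ :=
  field (-(1 / 10 ^ 200)) (-10) (5 - 1 / 10 ^ 13) 1 1 (-25 + 9 / 10 ^ 13 - 8 / 10 ^ 52)

lemma shi_eq : shi = Y301.XB.f := by
  funext p
  rw [Y301.XB_f]
  unfold shi field Y301.lam Y301.bb Y301.ee
  ext
  · simp only
    ring
  · simp only
    ring

/-- Shi's system has at most four periodic orbits, hence at most four limit cycles. -/
theorem result : {C | IsPeriodicOrbit shi C}.encard ≤ 4 ∧ {C | IsLimitCycle shi C}.encard ≤ 4 := by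
  have h1 : {C | IsPeriodicOrbit shi C}.encard ≤ 4 := by
    rw [shi_eq]
    exact Y301.main
  exact ⟨h1, (Set.encard_le_encard fun C hC => hC.1).trans h1⟩

end Pool.Agent.Results.MP_732d27_an.ShiFour
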